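import Mathlib
import Pool.Agent.H97.Flow.Jobs

/-!
# MP_806e08_lc, Q1: maximal flow time with interval or bipartite conflicts

There is a deterministic on-line algorithm whose maximal flow time is at most `f v * A` on every
job sequence, for conflict graphs with `v` vertices that are interval graphs or bipartite graphs,
where `A` is the optimal (off-line) maximal flow time, which the algorithm does not know.

Idea of the proof. On the level of counts let `y s` be the services of the reference schedule
before time `s` and `x` those of the algorithm. The algorithm keeps, for all reference schedules
compatible with what is known and with a guess `a` of `A`, the clique inequality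
`∑ w ∈ K, (y s w - x w) + (t - s) ≤ Λ` for all cliques `K`, with a reference time `s` that lags
behind the current time `t`. It works in phases that serve one fixed vertex `u`; each time that it
is not certain which stable set (with `u`) hits all cliques that may be tight, the reference time is
moved forward by `a`, which a bounded potential allows only a bounded number of times per phase.
-/

namespace Pool.Agent.Results.MP_806e08_lc.LinearMaxFlow

open Pool.Agent.H97.Flow

theorem result : ∃ f : ℕ → ℕ, ∀ (v : ℕ) (G : SimpleGraph (Fin v)),
    IsIntervalGraph G ∨ G.IsBipartite →
    ∃ alg : OnlineAlg G, ∀ (I : Inst v) (A : ℕ), HasFlow G I A →
      ∀ (j : Job) (w : Fin v), OnVertex I j w →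
        ∃ t, j ∈ alg.run I t ∧ t + 1 ≤ j.1 + f v * A := main

end Pool.Agent.Results.MP_806e08_lc.LinearMaxFlow
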